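import Pool.Agent.H86.CMLib.W401.Cheb.Defs

/-! Absolute Galois groups, Frobenius elements, and Chebotarev's theorem over a number field. -/

set_option autoImplicit false

namespace Pool.Agent.W401.Cheb

open NumberField Filter Topology IsDedekindDomain

/-- the absolute Galois group of `K` (with the Krull topology) -/
abbrev GK (K : Type) [Field K] : Type := Gal(AlgebraicClosure K/K)

section
variable {K : Type} [Field K] [NumberField K]

/-- `σ` is a Frobenius element at the prime `v` of `K`: there is a maximal ideal `Q` above `v` of the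
ring of all algebraic integers with `σ x ≡ x ^ N(v)` modulo `Q` for all `x` -/
def IsFrob (v : HeightOneSpectrum (𝓞 K)) (σ : GK K) : Prop :=
  ∃ Q : Ideal (𝓞 (AlgebraicClosure K)), Q.IsMaximal ∧
    Q.comap (algebraMap (𝓞 K) (𝓞 (AlgebraicClosure K))) = v.asIdeal ∧
    ∀ x : 𝓞 (AlgebraicClosure K), σ • x - x ^ Ideal.absNorm v.asIdeal ∈ Q

/-- `σ` is in an inertia group at the prime `v` of `K`: there is a maximal ideal `Q` above `v` of the
ring of all algebraic integers with `σ x ≡ x` modulo `Q` for all `x` -/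
def IsInert (v : HeightOneSpectrum (𝓞 K)) (σ : GK K) : Prop :=
  ∃ Q : Ideal (𝓞 (AlgebraicClosure K)), Q.IsMaximal ∧
    Q.comap (algebraMap (𝓞 K) (𝓞 (AlgebraicClosure K))) = v.asIdeal ∧
    ∀ x : 𝓞 (AlgebraicClosure K), σ • x - x ∈ Q

/-- number of primes `v` of `K` with norm at most `N` and property `P`, divided by the number of
rational primes up to `N` -/
noncomputable def dens (P : HeightOneSpectrum (𝓞 K) → Prop) (N : ℕ) : ℝ :=
  (Nat.card {v : HeightOneSpectrum (𝓞 K) // Ideal.absNorm v.asIdeal ≤ N ∧ P v} : ℝ) /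
    (Nat.primeCounting N : ℝ)

end

/-- **Chebotarev's theorem** for the absolute Galois group of a number field: for an open normal
subgroup `U` and a set `C`, invariant under conjugation and under translation by `U`, the primes with
a Frobenius element in `C` have natural density `|C / U| / |G / U|`. -/
def ChebK : Prop := ∀ (K : Type) [Field K] [NumberField K] (U : Subgroup (GK K)) [U.Normal],
  IsOpen (U : Set (GK K)) → ∀ C : Set (GK K),
  (∀ σ ∈ C, ∀ τ : GK K, τ * σ * τ⁻¹ ∈ C) → (∀ σ ∈ C, ∀ u ∈ U, σ * u ∈ C) →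
  Tendsto (dens fun v : HeightOneSpectrum (𝓞 K) => ∃ σ ∈ C, IsFrob v σ) atTop
    (𝓝 ((((QuotientGroup.mk : GK K → GK K ⧸ U) '' C).ncard : ℝ) / (Nat.card (GK K ⧸ U) : ℝ)))

/-- **CH-ABS** -/
def TaskAbs : Prop := Chebotarev → TaskTor → ChebK

/-- **CH-UNR.** For an open normal subgroup `U` almost all primes are unramified, and at an unramified
prime the Frobenius elements form one conjugacy class modulo `U`; Frobenius elements exist. -/
def TaskFrob : Prop := ∀ (K : Type) [Field K] [NumberField K],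
  (∀ v : HeightOneSpectrum (𝓞 K), ∃ σ : GK K, IsFrob v σ) ∧
  (∀ v : HeightOneSpectrum (𝓞 K), ∀ σ τ : GK K, IsFrob v σ → IsFrob v τ →
    ∃ ρ ι : GK K, IsInert v ι ∧ τ = ρ * σ * ρ⁻¹ * ι) ∧
  (∀ v : HeightOneSpectrum (𝓞 K), ∀ σ ρ : GK K, IsFrob v σ → IsFrob v (ρ * σ * ρ⁻¹))

end Pool.Agent.W401.Cheb
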